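import Pool.Agent.H97Z.JE.Defs

set_option autoImplicit false

open MeasureTheory Filter Finset
open scoped BigOperators Topology ComplexConjugate

noncomputable section

namespace Pool.Agent.H176Z.JE

open Pool.Agent.H97Z.JE

lemma ortho {I : Type*} (L : ℕ) [NeZero L] (s : Finset I) (d : I → ℤ)
    (hd : ∀ i ∈ s, |d i| < L) (c : I → ℂ) :
    ∑ j : ZMod L, ∑ i ∈ s, ZMod.stdAddChar (j * (d i : ZMod L)) * c i =
      L * ∑ i ∈ s, if d i = 0 then c i else 0 := by
  rw [Finset.sum_comm, Finset.mul_sum]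
  refine Finset.sum_congr rfl fun i hi => ?_
  rw [← Finset.sum_mul, AddChar.sum_mulShift _ (ZMod.isPrimitive_stdAddChar L), ZMod.card]
  by_cases h : d i = 0
  · simp [h]
  · have : (d i : ZMod L) ≠ 0 := by
      rw [Ne, ZMod.intCast_zmod_eq_zero_iff_dvd]
      intro h2
      exact h (Int.eq_zero_of_abs_lt_dvd h2 (hd i hi))
    simp [h, this]

lemma arith (H : ℕ) [NeZero (4 * H)] (γ : ℤ → ℂ) (h0 : ‖γ 0‖ ≤ 1) (M : ℝ)
    (P : ZMod (4 * H) → ℝ) (hP0 : ∀ j, 0 ≤ P j) (hP1 : ∀ j, P j ≤ (2 * H) ^ 2 * M)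
    (hP : ∀ j, (P j : ℂ) = ∑ p ∈ range (2 * H) ×ˢ range (2 * H),
      ZMod.stdAddChar (j * (((p.1 : ℤ) - p.2 : ℤ) : ZMod (4 * H))) * γ (p.1 - p.2)) :
    ∑ p ∈ range H ×ˢ range H, ‖γ (p.1 - p.2)‖ ^ 2 ≤ 8 * H ^ 2 * M := by
  have hH : 0 < H := by
    have := NeZero.ne (4 * H)
    omega
  have hH' : (0 : ℝ) < H := by exact_mod_cast hH
  set R := range (2 * H) ×ˢ range (2 * H) with hR
  have mR : ∀ p ∈ R, p.1 < 2 * H ∧ p.2 < 2 * H := fun p hp => by simpa [hR] using hp
  have e1 : ((∑ j, P j : ℝ) : ℂ) = (4 * H : ℕ) * ((2 * H : ℕ) * γ 0) := by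
    rw [Complex.ofReal_sum, Finset.sum_congr rfl fun j _ => hP j,
      ortho (4 * H) R (fun p => (p.1 : ℤ) - p.2) (fun p hp => by
        have := mR p hp
        rw [abs_lt]; push_cast; omega)]
    congr 1
    rw [hR, Finset.sum_product]
    have : ∀ a ∈ range (2 * H), (∑ b ∈ range (2 * H),
        if ((a : ℤ) - b = 0) then γ (a - b) else 0) = γ 0 := by
      intro a ha
      rw [Finset.sum_eq_single a]
      · simp
      · intro b _ hb
        rw [if_neg (by omega)]
      · intro h; exact absurd ha h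
    rw [Finset.sum_congr rfl this]
    simp
  have e1' : ∑ j, P j ≤ 4 * H * (2 * H) := by
    have h1 := congrArg norm e1
    rw [Complex.norm_real, norm_mul, norm_mul, Complex.norm_natCast, Complex.norm_natCast] at h1
    have h2 := le_abs_self (∑ j, P j)
    rw [← Real.norm_eq_abs, h1] at h2
    push_cast at h2
    have : (4 * H : ℝ) * (2 * H * ‖γ 0‖) ≤ 4 * H * (2 * H * 1) := by gcongr
    linarith
  have e2 : ((∑ j, P j ^ 2 : ℝ) : ℂ) = (((4 * H : ℕ) * ∑ q ∈ R ×ˢ R,
      if ((q.1.1 : ℤ) - q.1.2 - (q.2.1 - q.2.2) = 0) then ‖γ (q.1.1 - q.1.2)‖ ^ 2 else 0 : ℝ) : ℂ) := by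
    have : ∀ j, ((P j ^ 2 : ℝ) : ℂ) = ∑ q ∈ R ×ˢ R, ZMod.stdAddChar
        (j * (((q.1.1 : ℤ) - q.1.2 - (q.2.1 - q.2.2) : ℤ) : ZMod (4 * H))) *
          (γ (q.1.1 - q.1.2) * conj (γ (q.2.1 - q.2.2))) := by
      intro j
      have h1 : ((P j ^ 2 : ℝ) : ℂ) = (P j : ℂ) * conj (P j : ℂ) := by
        rw [Complex.conj_ofReal]; push_cast; ring
      rw [h1, hP j, map_sum, Finset.sum_mul_sum, Finset.sum_product (s := R) (t := R)]
      refine Finset.sum_congr rfl fun p _ => Finset.sum_congr rfl fun q _ => ?_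
      rw [map_mul (starRingEnd ℂ), ← AddChar.map_neg_eq_conj, mul_mul_mul_comm, ← AddChar.map_add_eq_mul]
      congr 2
      push_cast
      ring
    rw [Complex.ofReal_sum, Finset.sum_congr rfl fun j _ => this j,
      ortho (4 * H) (R ×ˢ R) (fun q => (q.1.1 : ℤ) - q.1.2 - (q.2.1 - q.2.2)) (fun q hq => by
        have h1 := mR _ (Finset.mem_product.mp hq).1
        have h2 := mR _ (Finset.mem_product.mp hq).2
        rw [abs_lt]; push_cast; omega)]
    push_cast
    congr 1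
    refine Finset.sum_congr rfl fun q _ => ?_
    split_ifs with c
    · rw [← sub_eq_zero.mp c, Complex.mul_conj, Complex.normSq_eq_norm_sq]
    · simp
  have e2' := Complex.ofReal_injective e2
  have e3 : H * ∑ p ∈ range H ×ˢ range H, ‖γ (p.1 - p.2)‖ ^ 2 ≤ ∑ q ∈ R ×ˢ R,
      if ((q.1.1 : ℤ) - q.1.2 - (q.2.1 - q.2.2) = 0) then ‖γ (q.1.1 - q.1.2)‖ ^ 2 else 0 := by
    rw [Finset.sum_product (s := R) (t := R), Finset.mul_sum]
    refine le_trans (Finset.sum_le_sum fun p hp => ?_)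
      (Finset.sum_le_sum_of_subset_of_nonneg (s := range H ×ˢ range H) ?_ ?_)
    · have hp' : p.1 < H ∧ p.2 < H := by simpa using hp
      dsimp only
      rw [← Finset.sum_filter, Finset.sum_const, nsmul_eq_mul]
      refine mul_le_mul_of_nonneg_right ?_ (by positivity)
      rw [Nat.cast_le]
      conv_lhs => rw [← Finset.card_range H]
      refine Finset.card_le_card_of_injOn (fun t => (p.1 + t, p.2 + t)) ?_ ?_
      · intro t ht
        have : t < H := by simpa using ht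
        simp only [hR, Finset.coe_filter, Finset.mem_product, Finset.mem_range, Set.mem_ofPred_eq]
        refine ⟨⟨by omega, by omega⟩, ?_⟩
        push_cast; ring
      · intro t _ t' _ e
        have := congrArg Prod.fst e
        simpa using this
    · intro p hp
      have hp' : p.1 < H ∧ p.2 < H := by simpa using hp
      simp only [hR, Finset.mem_product, Finset.mem_range]
      omega
    · intro p _ _
      refine Finset.sum_nonneg fun q _ => ?_
      split_ifs <;> positivity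
  have hM : 0 ≤ (2 * H : ℝ) ^ 2 * M := (hP0 0).trans (hP1 0)
  have e4 : ∑ j, P j ^ 2 ≤ (2 * H) ^ 2 * M * (4 * H * (2 * H)) := by
    refine le_trans ?_ (mul_le_mul_of_nonneg_left e1' hM)
    rw [Finset.mul_sum]
    refine Finset.sum_le_sum fun j _ => ?_
    rw [sq]
    exact mul_le_mul_of_nonneg_right (hP1 j) (hP0 j)
  rw [e2'] at e4
  push_cast at e4
  have e5 : (4 * H * H : ℝ) * ∑ p ∈ range H ×ˢ range H, ‖γ (p.1 - p.2)‖ ^ 2 ≤
      (4 * H * H) * (8 * H ^ 2 * M) := by
    calc _ = (4 * H : ℝ) * (H * ∑ p ∈ range H ×ˢ range H, ‖γ (p.1 - p.2)‖ ^ 2) := by ring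
      _ ≤ _ := mul_le_mul_of_nonneg_left e3 (by positivity)
      _ ≤ _ := e4
      _ = _ := by ring
  exact le_of_mul_le_mul_left e5 (by positivity)

variable {X : Type} [MeasurableSpace X] (S : Sys X)

lemma integrable_bd {E : Type} [NormedAddCommGroup E] [MeasurableSpace E] [BorelSpace E]
    [SecondCountableTopology E] {f : X → E} (hf : Measurable f) (C : ℝ) (h : ∀ x, ‖f x‖ ≤ C) :
    Integrable f S.μ :=
  Integrable.of_bound hf.aestronglyMeasurable C (Eventually.of_forall h)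

lemma int_comp {E : Type} [NormedAddCommGroup E] [NormedSpace ℝ E] [MeasurableSpace E]
    [BorelSpace E] [SecondCountableTopology E] {f : X → E} (hf : Measurable f) (a : ℤ) :
    ∫ x, f (S.T a x) ∂S.μ = ∫ x, f x ∂S.μ := by
  conv_rhs => rw [← (S.mp a).map_eq]
  rw [integral_map (S.mp a).measurable.aemeasurable hf.aestronglyMeasurable]

variable {S}

lemma b1_pair {G : X → ℂ} (hG : B1 G) (a b : ℤ) :
    B1 fun x => G (S.T a x) * conj (G (S.T b x)) := by
  refine ⟨(hG.1.comp (S.mp a).measurable).mul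
    (Complex.continuous_conj.measurable.comp (hG.1.comp (S.mp b).measurable)), fun x => ?_⟩
  rw [norm_mul, Complex.norm_conj]
  exact mul_le_one₀ (hG.2 _) (norm_nonneg _) (hG.2 _)

/-- correlation -/
def gam (S : Sys X) (G : X → ℂ) (h : ℤ) : ℂ := ∫ x, G (S.T h x) * conj (G (S.T 0 x)) ∂S.μ

lemma int_pair {G : X → ℂ} (hG : B1 G) (a b : ℤ) :
    ∫ x, G (S.T a x) * conj (G (S.T b x)) ∂S.μ = gam S G (a - b) := by
  unfold gam
  rw [← int_comp S (b1_pair hG (a - b) 0).1 b]
  simp only [← S.add, sub_add_cancel, zero_add]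

lemma norm_gam {G : X → ℂ} (hG : B1 G) (a : ℤ) : ‖gam S G a‖ ≤ 1 := by
  have := norm_integral_le_of_norm_le_const (μ := S.μ)
    (Eventually.of_forall (b1_pair (S := S) hG a 0).2)
  simpa [gam] using this

/-- twisted sums -/
def A (S : Sys X) (G : X → ℂ) (w : ℂ) (H : ℕ) (x : X) : ℂ :=
  ∑ b ∈ range H, w ^ b * G (S.T b x)

lemma A_meas {G : X → ℂ} (hG : B1 G) (w : ℂ) (H : ℕ) : Measurable (A S G w H) :=
  Finset.measurable_sum _ fun b _ => (hG.1.comp (S.mp b).measurable).const_mul _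

lemma A_bd {G : X → ℂ} (hG : B1 G) {w : ℂ} (hw : ‖w‖ = 1) (H : ℕ) (x : X) :
    ‖A S G w H x‖ ≤ H := by
  refine (norm_sum_le _ _).trans ?_
  refine (Finset.sum_le_card_nsmul _ _ 1 fun b _ => ?_).trans (by simp)
  rw [norm_mul, norm_pow, hw, one_pow, one_mul]
  exact hG.2 _

/-- energy of the twisted sums -/
def En (S : Sys X) (G : X → ℂ) (w : ℂ) (H : ℕ) : ℝ := ∫ x, ‖A S G w H x‖ ^ 2 ∂S.μ

lemma En_nonneg (G : X → ℂ) (w : ℂ) (H : ℕ) : 0 ≤ En S G w H :=
  integral_nonneg fun _ => by positivity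

lemma En_eq {G : X → ℂ} (hG : B1 G) (w : ℂ) (H : ℕ) : (En S G w H : ℂ) =
    ∑ p ∈ range H ×ˢ range H, w ^ p.1 * conj (w ^ p.2) * gam S G (p.1 - p.2) := by
  unfold En
  rw [← integral_complex_ofReal]
  have : ∀ x, ((‖A S G w H x‖ ^ 2 : ℝ) : ℂ) = ∑ p ∈ range H ×ˢ range H,
      w ^ p.1 * conj (w ^ p.2) * (G (S.T p.1 x) * conj (G (S.T p.2 x))) := by
    intro x
    rw [← Complex.normSq_eq_norm_sq, ← Complex.mul_conj, A, map_sum, Finset.sum_mul_sum,
      Finset.sum_product]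
    refine Finset.sum_congr rfl fun a _ => Finset.sum_congr rfl fun b _ => ?_
    rw [map_mul]; ring
  refine (integral_congr_ae (Eventually.of_forall this)).trans ?_
  rw [integral_finsetSum]
  · refine Finset.sum_congr rfl fun p _ => ?_
    rw [integral_const_mul, int_pair hG]
  · intro p _
    exact (integrable_bd S (b1_pair hG _ _).1 1 (b1_pair hG _ _).2).const_mul _

lemma En_cont {G : X → ℂ} (hG : B1 G) (H : ℕ) : Continuous fun w => En S G w H := by
  have : (fun w => En S G w H) = fun w => (∑ p ∈ range H ×ˢ range H,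
      w ^ p.1 * conj (w ^ p.2) * gam S G (p.1 - p.2)).re := by
    funext w
    rw [← En_eq hG, Complex.ofReal_re]
  rw [this]
  refine Complex.continuous_re.comp (continuous_finsetSum _ fun p _ => ?_)
  exact ((continuous_pow _).mul (Complex.continuous_conj.comp (continuous_pow _))).mul
    continuous_const

lemma A_mul (G : X → ℂ) (w : ℂ) (H k : ℕ) (x : X) :
    A S G w (k * H) x = ∑ i ∈ range k, w ^ (i * H) * A S G w H (S.T (i * H : ℕ) x) := by
  induction k with
  | zero => simp [A]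
  | succ k ih =>
    rw [Finset.sum_range_succ, ← ih, Nat.succ_mul]
    unfold A
    rw [Finset.sum_range_add, Finset.mul_sum]
    congr 1
    refine Finset.sum_congr rfl fun b _ => ?_
    rw [← S.add, pow_add, mul_assoc]
    congr 3
    push_cast; ring

lemma En_mul {G : X → ℂ} (hG : B1 G) {w : ℂ} (hw : ‖w‖ = 1) (H k : ℕ) :
    En S G w (k * H) ≤ k ^ 2 * En S G w H := by
  have m1 : Measurable fun x => ‖A S G w H x‖ ^ 2 := (A_meas hG w H).norm.pow_const 2
  have i1 : ∀ a : ℤ, Integrable (fun x => ‖A S G w H (S.T a x)‖ ^ 2) S.μ := fun a =>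
    integrable_bd S (m1.comp (S.mp a).measurable) (H ^ 2) fun x => by
      rw [norm_pow, norm_norm]
      exact pow_le_pow_left₀ (norm_nonneg _) (A_bd hG hw H _) 2
  have h1 : ∀ x, ‖A S G w (k * H) x‖ ^ 2 ≤
      k * ∑ i ∈ range k, ‖A S G w H (S.T (i * H : ℕ) x)‖ ^ 2 := by
    intro x
    rw [A_mul]
    refine (pow_le_pow_left₀ (norm_nonneg _) (norm_sum_le _ _) 2).trans ?_
    refine sq_sum_le_card_mul_sum_sq.trans (le_of_eq ?_)
    rw [Finset.card_range]
    congr 1
    refine Finset.sum_congr rfl fun i _ => ?_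
    rw [norm_mul, norm_pow, hw, one_pow, one_mul]
  refine (integral_mono_of_nonneg (Eventually.of_forall fun _ => by positivity)
    ((integrable_finsetSum _ fun i _ => i1 _).const_mul _) (Eventually.of_forall h1)).trans
    (le_of_eq ?_)
  rw [integral_const_mul, integral_finsetSum _ fun i _ => i1 _,
    Finset.sum_congr rfl fun i _ => int_comp S m1 _, Finset.sum_const, Finset.card_range,
    nsmul_eq_mul, En]
  ring

/-- normalised energy -/
def Ph (S : Sys X) (G : X → ℂ) (w : ℂ) (H : ℕ) : ℝ := En S G w H / H ^ 2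

lemma Ph_eq (G : X → ℂ) (w : ℂ) (H : ℕ) :
    ∫ x, ‖𝔼 b ∈ range H, w ^ b * G (S.T b x)‖ ^ 2 ∂S.μ = Ph S G w H := by
  unfold Ph En A
  rw [← integral_div]
  refine integral_congr_ae (Eventually.of_forall fun x => ?_)
  simp only [Finset.expect_eq_sum_div_card, Finset.card_range, norm_div, Complex.norm_natCast,
    div_pow]

lemma Ph_dvd {G : X → ℂ} (hG : B1 G) {w : ℂ} (hw : ‖w‖ = 1) {H K : ℕ} (hK : 0 < K) (h : H ∣ K) :
    Ph S G w K ≤ Ph S G w H := by
  obtain ⟨k, rfl⟩ := h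
  have hH : (0 : ℝ) < H := by exact_mod_cast Nat.pos_of_mul_pos_right hK
  have hk : (0 : ℝ) < k := by exact_mod_cast Nat.pos_of_mul_pos_left hK
  unfold Ph
  rw [mul_comm H k, div_le_div_iff₀ (by push_cast; positivity) (by positivity)]
  have := En_mul (S := S) hG hw H k
  push_cast
  calc En S G w (k * H) * H ^ 2 ≤ k ^ 2 * En S G w H * H ^ 2 := by gcongr
    _ = _ := by ring

lemma U_one {G : X → ℂ} (hG : B1 G) (H : ℕ) : U S 1 [H] G = Ph S G 1 H := by
  have h1 := congrArg Complex.re (En_eq (S := S) hG 1 H)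
  rw [Complex.ofReal_re, Complex.re_sum, Finset.sum_product] at h1
  unfold Ph
  rw [h1]
  simp only [U, one_mul, one_pow, map_one, int_pair hG, Finset.expect_eq_sum_div_card,
    Finset.card_range, ← Finset.sum_div]
  rw [div_div, sq]

lemma eig_of {χ : X → ℂ} {ζ : ℂ} (hζ : ‖ζ‖ = 1) (h : ∀ x, χ (S.T 1 x) = ζ * χ x) : Eig S χ ζ := by
  have h0 : ζ ≠ 0 := by
    rintro rfl
    simp at hζ
  refine ⟨hζ, fun m => ?_⟩
  induction m using Int.induction_on with
  | zero => intro x; rw [S.zero, zpow_zero, one_mul]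
  | succ m ih => intro x; rw [S.add, ih, h, zpow_add_one₀ h0, mul_assoc]
  | pred m ih =>
    intro x
    have h1 := h (S.T (-(m : ℤ) - 1) x)
    rw [← S.add, show (1 : ℤ) + (-(m : ℤ) - 1) = -m by ring, ih] at h1
    rw [zpow_sub_one₀ h0, mul_comm _ ζ⁻¹, mul_assoc, h1, inv_mul_cancel_left₀ h0]

theorem thm_u2 (h : S_eig) : S_u2 := by
  intro X _ S hE F hF ε hε
  have h1 : ∀ w : Metric.sphere (0 : ℂ) 1, ‖(w : ℂ)‖ = 1 := fun w => by simp
  have h2 : ∀ w : Metric.sphere (0 : ℂ) 1, ‖(w : ℂ)⁻¹‖ = 1 := fun w => by simp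
  choose χ c1 c2 c3 c4 using fun w : Metric.sphere (0 : ℂ) 1 => h X S 1 (w : ℂ)⁻¹ F (h2 w) hF
  set v : Metric.sphere (0 : ℂ) 1 → ℝ := fun w => ∫ x, ‖χ w x‖ ^ 2 ∂S.μ with hv
  have bd : BddAbove (Set.range v) := by
    refine ⟨1, ?_⟩
    rintro _ ⟨w, rfl⟩
    have := norm_integral_le_of_norm_le_const (μ := S.μ) (f := fun x => ‖χ w x‖ ^ 2) (C := 1)
      (Eventually.of_forall fun x => by
        rw [norm_pow, norm_norm]
        exact pow_le_one₀ (norm_nonneg _) ((c1 w).2 x))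
    exact (le_abs_self _).trans (by simpa using this)
  have : Nonempty (Metric.sphere (0 : ℂ) 1) := ⟨⟨1, by simp⟩⟩
  set η := ε / 25 with hη
  have hη0 : 0 < η := by positivity
  obtain ⟨w0, hw0⟩ := exists_lt_of_lt_ciSup (show iSup v - η < iSup v by linarith)
  refine ⟨χ w0, _, c1 w0, eig_of (h2 w0) (c2 w0), ?_, ?_⟩
  · rw [c3 w0 _ (c1 w0) (c2 w0), ← integral_complex_ofReal]
    refine integral_congr_ae (Eventually.of_forall fun x => ?_)
    simp only [Complex.mul_conj, Complex.normSq_eq_norm_sq]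
  obtain ⟨t, ht⟩ := (isCompact_sphere (0 : ℂ) 1).elim_finite_subcover
    (fun H : ℕ => {w | Ph S F w (H + 1) < iSup v + 2 * η})
    (fun H => isOpen_lt ((En_cont hF _).div_const _) continuous_const) (by
      intro w hw
      obtain ⟨H, hH, h3⟩ := c4 ⟨w, hw⟩ η hη0
      simp only [inv_inv, one_mul] at h3
      rw [Ph_eq] at h3
      have h4 := le_ciSup bd ⟨w, hw⟩
      refine Set.mem_iUnion.mpr ⟨H - 1, ?_⟩
      rw [Set.mem_ofPred_eq, Nat.sub_add_cancel hH]
      simp only [hv] at h4 ⊢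
      linarith)
  refine ⟨∏ H ∈ t, (H + 1), Finset.prod_pos fun _ _ => Nat.succ_pos _, fun k1 hk1 => ?_⟩
  set H := k1 * ∏ H ∈ t, (H + 1) with hH
  have H0 : 0 < H := Nat.mul_pos hk1 (Finset.prod_pos fun _ _ => Nat.succ_pos _)
  have H0' : (0 : ℝ) < H := by exact_mod_cast H0
  have b1 : ∀ w : ℂ, ‖w‖ = 1 → En S F w (2 * H) ≤ (2 * H) ^ 2 * (iSup v + 2 * η) := by
    intro w hw
    obtain ⟨K, hK, h3⟩ := Set.mem_iUnion₂.mp (ht (show w ∈ Metric.sphere (0 : ℂ) 1 by simpa))
    have h4 := (Ph_dvd (S := S) hF hw (H := K + 1) (K := 2 * H) (by omega)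
      (((Finset.dvd_prod_of_mem _ hK).mul_left _).mul_left _)).trans h3.le
    unfold Ph at h4
    rw [div_le_iff₀ (by push_cast; positivity)] at h4
    push_cast at h4
    linarith
  have : NeZero (4 * H) := ⟨by omega⟩
  have b2 := arith H (gam S F) (norm_gam hF 0) (iSup v + 2 * η)
    (fun j => En S F (ZMod.stdAddChar j) (2 * H)) (fun j => En_nonneg _ _ _)
    (fun j => b1 _ (AddChar.norm_apply _ _)) (fun j => by
      rw [En_eq hF]
      refine Finset.sum_congr rfl fun p _ => ?_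
      rw [← AddChar.map_nsmul_eq_pow, ← AddChar.map_nsmul_eq_pow, ← AddChar.map_neg_eq_conj,
        ← AddChar.map_add_eq_mul]
      congr 2
      push_cast
      ring)
  choose K k1' k2' using fun p : ℕ × ℕ => hE _ (b1_pair (S := S) hF p.1 p.2) η hη0
  refine ⟨∏ p ∈ range H ×ˢ range H, K p, Finset.prod_pos fun p _ => k1' p, fun k2 hk2 => ?_⟩
  have b3 : ∀ p ∈ range H ×ˢ range H,
      U S 1 [k2 * ∏ p ∈ range H ×ˢ range H, K p]
        (fun x => F (S.T p.1 x) * conj (F (S.T p.2 x))) ≤ ‖gam S F (p.1 - p.2)‖ ^ 2 + η := by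
    intro p hp
    rw [U_one (b1_pair hF _ _)]
    refine (Ph_dvd (b1_pair hF _ _) norm_one (H := K p)
      (Nat.mul_pos hk2 (Finset.prod_pos fun p _ => k1' p))
      ((Finset.dvd_prod_of_mem _ hp).mul_left _)).trans ?_
    rw [← Ph_eq, ← int_pair hF]
    simpa only [one_pow, one_mul] using k2' p
  have b4 := Finset.sum_le_sum b3
  rw [Finset.sum_add_distrib, Finset.sum_const, Finset.card_product, Finset.card_range,
    nsmul_eq_mul, Finset.sum_product] at b4
  rw [U]
  simp only [one_mul, Finset.expect_eq_sum_div_card, Finset.card_range, ← Finset.sum_div]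
  rw [div_div, div_le_iff₀ (by positivity)]
  refine b4.trans ?_
  push_cast
  have : iSup v ≤ ∫ x, ‖χ w0 x‖ ^ 2 ∂S.μ + η := by
    simp only [hv] at hw0 ⊢
    linarith
  have e : ε = 25 * η := by rw [hη]; ring
  rw [e]
  nlinarith [mul_pos H0' H0']

end Pool.Agent.H176Z.JE
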